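import Pool.Agent.H25.Multi

open Finset Filter Topology Pool.Agent.H25.Multi

namespace Pool.Agent.Results.MP_f0b429_co.Fails

/-- Partitions of `n` whose parts are at most 6 or multiples of 3. -/
def pStar (n : ℕ) : ℕ := #{l : n.Partition | ∀ a ∈ l.parts, a ≤ 6 ∨ 3 ∣ a}

theorem result : (∃ N, ∀ n, N ≤ n → M n < pStar n) ∧ ¬∀ n, pStar n ≤ M n := by
  obtain ⟨N, h⟩ := eventually_atTop.1
    (lt_count (fun a => a ≤ 6 ∨ 3 ∣ a) (by simp) fun a => .inr ⟨a, rfl⟩)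
  exact ⟨⟨N, h⟩, fun e => (h N le_rfl).not_ge (e N)⟩

end Pool.Agent.Results.MP_f0b429_co.Fails
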